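import Mathlib
import Pool.Agent.H5.TSD.Main
import Pool.Agent.H5.TSD.Lau3
import Pool.Agent.H5.TSD.Affine
import Pool.Agent.H49.TSD.Eig
import Pool.Agent.H49.TSD.Trop
import Pool.Agent.H49.TSD.Period
import Pool.Agent.H15.TSys.Dynkin

/-!
# MP_5f688c_co, Q1: linear recurrences for the T-systems of all affine-finite ADE bigraphs

For every affine-finite ADE bigraph `G = (Γ, Δ)` and every vertex `v`, the T-system satisfies at
`v` an alternating linear recurrence with an even step `i ≥ 1`, whose coefficients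
`J_0 = 1, J_1, ..., J_N, J_(N+1) = 1` are conserved quantities. This answers Q1 affirmatively.
-/

set_option autoImplicit false

open Finset

namespace Pool.Agent.Results.MP_5f688c_co.LinearRecurrences

open Pool.Agent.H15.TSys (IsFiniteDynkin)
open Pool.Agent.H5.TSD (IsAffineDynkin)

/-- A bipartite bigraph: two graphs on the same vertices without a common edge, and a colouring
`ε` with values in `{0, 1}` such that both ends of every edge have different colours. -/
structure Bigraph (V : Type) where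
  Γ : SimpleGraph V
  Δ : SimpleGraph V
  noCommonEdge : ∀ u v, Γ.Adj u v → ¬ Δ.Adj u v
  ε : V → ℤ
  color : ∀ v, ε v = 0 ∨ ε v = 1
  colorΓ : ∀ u v, Γ.Adj u v → ε u ≠ ε v
  colorΔ : ∀ u v, Δ.Adj u v → ε u ≠ ε v

/-- The field of rational functions over `ℚ` in the indeterminates `x_v`, `v ∈ V`. -/
abbrev RatFun (V : Type) := FractionRing (MvPolynomial V ℚ)

/-- The indeterminate `x_v`. -/
noncomputable def x {V : Type} (v : V) : RatFun V :=
  algebraMap (MvPolynomial V ℚ) (RatFun V) (MvPolynomial.X v)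

variable {V : Type} [Fintype V]

open Classical in
/-- `G` is an affine-finite ADE bigraph: the graph `Γ ∪ Δ` is connected, the adjacency matrices
commute, every component of `Γ` is an affine Dynkin diagram of type `A`, `D` or `E` and every
component of `Δ` is a finite Dynkin diagram of type `A`, `D` or `E`. -/
structure Bigraph.IsAffineFinite (G : Bigraph V) : Prop where
  connected : (G.Γ ⊔ G.Δ).Connected
  comm : G.Γ.adjMatrix ℤ * G.Δ.adjMatrix ℤ = G.Δ.adjMatrix ℤ * G.Γ.adjMatrix ℤ
  affine : ∀ C : G.Γ.ConnectedComponent, IsAffineDynkin C.toSimpleGraph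
  finite : ∀ C : G.Δ.ConnectedComponent, IsFiniteDynkin C.toSimpleGraph

open Classical in
/-- `T` is the T-system of `G`; only the values `T v t` with `t + ε v` even are used. -/
structure Bigraph.IsTSystem (G : Bigraph V) (T : V → ℤ → RatFun V) : Prop where
  init : ∀ v, T v (G.ε v) = x v
  rel : ∀ v t, Even (t + 1 + G.ε v) →
    T v (t + 1) * T v (t - 1) =
      ∏ u ∈ G.Γ.neighborFinset v, T u t + ∏ w ∈ G.Δ.neighborFinset v, T w t

/-- `J` is a conserved quantity: it is fixed by the substitution `x_v ↦ T_v(ε_v + 2)`. -/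
def Bigraph.Conserved (G : Bigraph V) (T : V → ℤ → RatFun V) (J : RatFun V) : Prop :=
  ∃ φ : RatFun V →+* RatFun V, (∀ v, φ (x v) = T v (G.ε v + 2)) ∧ φ J = J

/-- The recurrence asked for in Q1 at the vertex `v`. -/
def Bigraph.HasRecurrence (G : Bigraph V) (T : V → ℤ → RatFun V) (v : V) : Prop :=
  ∃ (i N : ℕ) (J : ℕ → RatFun V), 1 ≤ i ∧ Even i ∧ J 0 = 1 ∧ J (N + 1) = 1 ∧
    (∀ k ≤ N + 1, G.Conserved T (J k)) ∧
    ∀ t : ℤ, Even (t + G.ε v) →
      ∑ k ∈ range (N + 2), (-1) ^ k * J k * T v (t + i * ((N : ℤ) + 1 - k)) = 0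

open Classical in
/-- the internal form of a bigraph -/
noncomputable def toSys (G : Bigraph V) : H15.TSys.Sys V where
  N v := G.Γ.neighborFinset v
  M v := G.Δ.neighborFinset v
  ε := G.ε
  hε := G.color
  hN v u h := G.colorΓ u v (by rw [SimpleGraph.mem_neighborFinset] at h; exact h.symm)
  hM v u h := G.colorΔ u v (by rw [SimpleGraph.mem_neighborFinset] at h; exact h.symm)

open Classical in
theorem mem_N (G : Bigraph V) (u v : V) : u ∈ (toSys G).N v ↔ G.Γ.Adj v u := by
  unfold toSys
  exact SimpleGraph.mem_neighborFinset _ _ _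

open Classical in
theorem mem_M (G : Bigraph V) (u v : V) : u ∈ (toSys G).M v ↔ G.Δ.Adj v u := by
  unfold toSys
  exact SimpleGraph.mem_neighborFinset _ _ _

open Classical in
theorem comm_count (G : Bigraph V)
    (hc : G.Γ.adjMatrix ℤ * G.Δ.adjMatrix ℤ = G.Δ.adjMatrix ℤ * G.Γ.adjMatrix ℤ) (a b : V)
    [DecidablePred fun x => b ∈ (toSys G).M x] [DecidablePred fun x => b ∈ (toSys G).N x] :
    (((toSys G).N a).filter fun x => b ∈ (toSys G).M x).card =
      (((toSys G).M a).filter fun x => b ∈ (toSys G).N x).card := by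
  have h := congrFun (congrFun hc a) b
  rw [SimpleGraph.adjMatrix_mul_apply, SimpleGraph.adjMatrix_mul_apply] at h
  have h1 : ((((toSys G).N a).filter fun x => b ∈ (toSys G).M x).card : ℤ) =
      ∑ u ∈ G.Γ.neighborFinset a, G.Δ.adjMatrix ℤ u b := by
    rw [Finset.card_filter]
    push_cast
    refine Finset.sum_congr rfl fun u _ => ?_
    rw [SimpleGraph.adjMatrix_apply]
    by_cases hu : G.Δ.Adj u b
    · rw [if_pos hu, if_pos]
      exact (SimpleGraph.mem_neighborFinset _ _ _).mpr hu
    · rw [if_neg hu, if_neg]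
      intro h'
      exact hu ((SimpleGraph.mem_neighborFinset _ _ _).mp h')
  have h2 : ((((toSys G).M a).filter fun x => b ∈ (toSys G).N x).card : ℤ) =
      ∑ u ∈ G.Δ.neighborFinset a, G.Γ.adjMatrix ℤ u b := by
    rw [Finset.card_filter]
    push_cast
    refine Finset.sum_congr rfl fun u _ => ?_
    rw [SimpleGraph.adjMatrix_apply]
    by_cases hu : G.Γ.Adj u b
    · rw [if_pos hu, if_pos]
      exact (SimpleGraph.mem_neighborFinset _ _ _).mpr hu
    · rw [if_neg hu, if_neg]
      intro h'
      exact hu ((SimpleGraph.mem_neighborFinset _ _ _).mp h')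
  rw [← h1, ← h2] at h
  exact_mod_cast h

/-- **Q1 of MP_5f688c_co.** For every affine-finite ADE bigraph the T-system satisfies at every
vertex the alternating linear recurrence with conserved coefficients. -/
theorem result (V : Type) [Fintype V] (G : Bigraph V) (hG : G.IsAffineFinite) :
    (∃ T, G.IsTSystem T) ∧ ∀ T, G.IsTSystem T → ∀ v, G.HasRecurrence T v := by
  classical
  obtain ⟨f, hf⟩ := H15.TSys.exists_subAdd_of_components G.Δ hG.finite
  obtain ⟨d, hd0, hd⟩ := H5.TSD.exists_posAdd_of_components G.Γ hG.affine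
  have hne : Nonempty V := hG.connected.nonempty
  set S := toSys G with hS
  have good : H5.TSD.Good S := by
    refine ⟨?_, ?_, ?_, ?_⟩
    · intro u v h
      exact (mem_N G v u).mpr ((mem_N G u v).mp h).symm
    · intro u v h
      exact (mem_M G v u).mpr ((mem_M G u v).mp h).symm
    · intro v
      rw [Finset.disjoint_left]
      intro u h1 h2
      exact G.noCommonEdge v u ((mem_N G u v).mp h1) ((mem_M G u v).mp h2)
    · intro v u
      exact comm_count G hG.comm v u
  have hconn : ∀ R : Finset V, R.Nonempty → (∀ v ∈ R, ∀ u ∈ S.N v, u ∈ R) →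
      (∀ v ∈ R, ∀ u ∈ S.M v, u ∈ R) → R = Finset.univ := by
    intro R hR h1 h2
    obtain ⟨a, ha⟩ := hR
    have walk : ∀ u w : V, (G.Γ ⊔ G.Δ).Walk u w → u ∈ R → w ∈ R := by
      intro u w p
      induction p with
      | nil => exact id
      | cons hadj _ ih =>
        intro hu
        apply ih
        rcases hadj with hadj | hadj
        · exact h1 _ hu _ ((mem_N G _ _).mpr hadj)
        · exact h2 _ hu _ ((mem_M G _ _).mpr hadj)
    ext w
    refine ⟨fun _ => Finset.mem_univ _, fun _ => ?_⟩
    obtain ⟨p⟩ := hG.connected.preconnected a w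
    exact walk a w p ha
  have hdN : ∀ v, ∑ u ∈ S.N v, d u = 2 * d v := fun v => hd v
  have hfM : ∀ v, ∑ u ∈ S.M v, f u < 2 * f v := fun v => hf v
  have hf0 : ∀ v, 0 < f v := fun v => by
    have := hfM v
    omega
  obtain ⟨q, lam, hq⟩ := H49.TSD.exists_eig S good hconn (fun v => (d v : ℝ))
    (fun v => by exact_mod_cast hd0 v) (fun v => by exact_mod_cast hdN v)
    (fun v => (f v : ℝ)) (fun v => by exact_mod_cast hf0 v) (fun v => by exact_mod_cast hfM v)
  obtain ⟨n, hn, _, hper⟩ := H49.TSD.exists_period S.N good.symmN d hd0 hdN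
  have hNne : ∀ v, (S.N v).Nonempty := by
    intro v
    rw [Finset.nonempty_iff_ne_empty]
    intro h
    have := hdN v
    rw [h, Finset.sum_empty] at this
    have := hd0 v
    omega
  have hlin : ∀ s : ℝ, s ≠ 0 → ∃ (t0 : ℕ) (p : ℝ), 0 < p ∧ H5.TSD.fseq lam s t0 < 0 ∧
      ∀ t : ℕ, H5.TSD.fseq lam s (t0 + t) = H5.TSD.fseq lam s t0 - p * t := by
    intro s hs
    exact H49.TSD.exists_linear lam hq.lam0 hq.lam2 (H5.TSD.fseq lam s) rfl hs
      (fun t => sub_add_cancel _ _)
  refine ⟨?_, fun T hT v => ?_⟩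
  · obtain ⟨T, hT⟩ := S.exists_isT
    exact ⟨T, hT.init, hT.rel⟩
  · have hT' : S.IsT T := ⟨hT.init, hT.rel⟩
    exact H5.TSD.main_of S q lam hq n hn hper hlin T hT'
      (fun v t ht hp => H5.TSD.laurent good hNne T hT' v t ht hp) v

end Pool.Agent.Results.MP_5f688c_co.LinearRecurrences
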